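import Pool.Agent.W682.BQ.Stm
import Pool.Agent.W411.IW.Pars

set_option autoImplicit false

namespace Pool.Agent.W646.BQ.Det

open Pool.Agent.W488.IW Pool.Agent.W488.IX Pool.Agent.W682.BQ
open Pool.Agent.W360.BQ (Cf Vg QCF S_FLOWF S_NULLF)
open MeasureTheory Set Filter Topology

theorem zero_mem_box (N : ℕ) : (0 : Idx) ∈ box N := by
  unfold box
  rw [Finset.mem_product, Finset.mem_Icc, Finset.mem_Icc]
  simp

theorem ek_zero (x : V) : ek 0 x = 1 := by
  unfold ek; simp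

theorem continuous_tp (L : Finset Idx) (w c : Idx → ℂ) : Continuous (tp L w c) := by
  unfold tp
  exact continuous_finsetSum _ fun k _ =>
    continuous_const.mul (Pool.Agent.W411.IW.Pars.continuous_ek k)

theorem shifted (N : ℕ) (a0 : ℂ) (w c : Idx → ℂ) (hw : w 0 = 0) :
    ∫ x in Icc (0 : V) 1, ‖a0 + tp (box N) w c x‖ ^ 2 =
      ‖a0‖ ^ 2 + ∑ k ∈ box N, ‖w k * c k‖ ^ 2 := by
  obtain ⟨c', hc'⟩ : ∃ c' : Idx → ℂ, c' = fun k => w k * c k + if k = 0 then a0 else 0 := ⟨_, rfl⟩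
  have h1 : ∀ x : V, a0 + tp (box N) w c x = tp (box N) (fun _ => 1) c' x := by
    intro x
    unfold tp
    rw [hc']
    simp only [one_mul, add_mul]
    rw [Finset.sum_add_distrib]
    have : ∑ k ∈ box N, (if k = 0 then a0 else 0) * ek k x = a0 := by
      rw [Finset.sum_eq_single (0 : Idx)]
      · simp [ek_zero]
      · intro k _ hk; simp [hk]
      · intro h; exact absurd (zero_mem_box N) h
    rw [this, add_comm]
  have h2 := Pool.Agent.W411.IW.Pars.main (box N) (fun _ => 1) c'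
  simp_rw [h1]
  rw [h2, ← Finset.add_sum_erase _ _ (zero_mem_box N), ← Finset.add_sum_erase (box N)
    (fun k => ‖w k * c k‖ ^ 2) (zero_mem_box N)]
  have h3 : ‖(1 : ℂ) * c' 0‖ ^ 2 = ‖a0‖ ^ 2 := by rw [hc']; simp [hw]
  have h4 : ‖w 0 * c 0‖ ^ 2 = 0 := by rw [hw]; simp
  rw [h3, h4, zero_add]
  congr 1
  refine Finset.sum_congr rfl fun k hk => ?_
  rw [hc']
  simp [(Finset.mem_erase.1 hk).1]

theorem norm_ka_kb (k : Idx) : ‖ka k‖ = ‖kb k‖ := by
  unfold ka kb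
  rw [norm_mul, norm_mul _ (_ + _)]
  congr 1
  have : ((k.1 : ℂ) + k.2 * Complex.I) = (starRingEnd ℂ) ((k.1 : ℂ) - k.2 * Complex.I) := by
    simp
  rw [this, Complex.norm_conj]

theorem main : S_DET := by
  intro F0 N c
  have ha := shifted N F0.1 ka c (by simp [ka])
  have hb := shifted N F0.2 kb c (by simp [kb])
  have hca : Continuous fun x : V => ‖F0.1 + tp (box N) ka c x‖ ^ 2 :=
    ((continuous_const.add (continuous_tp _ _ _)).norm).pow 2
  have hcb : Continuous fun x : V => ‖F0.2 + tp (box N) kb c x‖ ^ 2 :=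
    ((continuous_const.add (continuous_tp _ _ _)).norm).pow 2
  have h1 : ∫ x in Icc (0 : V) 1, (‖(F0 + gd (box N) c x).1‖ ^ 2 - ‖(F0 + gd (box N) c x).2‖ ^ 2) =
      ∫ x in Icc (0 : V) 1, (‖F0.1 + tp (box N) ka c x‖ ^ 2 - ‖F0.2 + tp (box N) kb c x‖ ^ 2) := rfl
  rw [h1, integral_sub hca.integrableOn_Icc hcb.integrableOn_Icc, ha, hb]
  have h2 : ∀ k ∈ box N, ‖ka k * c k‖ ^ 2 = ‖kb k * c k‖ ^ 2 := by
    intro k _
    rw [norm_mul, norm_mul, norm_ka_kb]
  rw [Finset.sum_congr rfl h2]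
  ring

end Pool.Agent.W646.BQ.Det
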